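import Pool.Agent.Helper385.Stallings.Closed

/-!
# A positively closed group over an arbitrary group that reflects products of conjugates
-/

set_option autoImplicit false

namespace Pool.Agent.Results.MP_e9d015_al.PositivelyClosed

open Pool.Agent.Helper385.Stallings

universe u

/-- Every group `G` embeds in a group `D` such that

(i) every positive equation `d 0 * t * d 1 * t * ... * d (m-1) * t = 1` over `D`, `m ≥ 1`, has a
solution in `D`;

(ii) for every `n`, if an element `a` of `G` is in `D` a product of conjugates of elements
`g 0, ..., g (n-1)` of `G`, then it is such a product in `G`. -/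
theorem result :
    ∀ (G : Type u) [Group G], ∃ (D : Type u) (_ : Group D) (f : G →* D),
      Function.Injective f ∧
      (∀ l : List D, l ≠ [] → ∃ t : D, (l.map fun d => d * t).prod = 1) ∧
      ∀ (n : ℕ) (a : G) (g : Fin n → G),
        (∃ c : Fin n → D, f a = (List.ofFn fun i => c i * f (g i) * (c i)⁻¹).prod) →
        ∃ c : Fin n → G, a = (List.ofFn fun i => c i * g i * (c i)⁻¹).prod := by
  intro G _
  obtain ⟨D, hD, f, hf, hc⟩ := exists_positively_closed G
  exact ⟨D, hD, f, hf.injective, hc, hf⟩

end Pool.Agent.Results.MP_e9d015_al.PositivelyClosed
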